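import Mathlib

/-!
# The degree of noninvertibility of extended promotion is largest for chains

For every finite poset `P` with `n ≥ 1` elements, the degree of noninvertibility of extended
promotion on the labelings of `P` is at most `(n + 2) (n + 1) / 6`.
-/

open Finset
open scoped Classical

set_option linter.unusedSectionVars false

namespace Pool.Agent.Results.MP_180e15_co.ChainMax

universe u

/-! ### Definitions used in the statement -/

section defs

variable {P : Type u} [PartialOrder P] [Fintype P] {n : ℕ}

/-- The label of `x`, an element of `{1, ..., n}`. -/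
def lab (L : P ≃ Fin n) (x : P) : ℕ := (L x : ℕ) + 1

/-- `y` is the `L`-successor of `x`: the element above `x` with the smallest label. -/
def IsSucc (L : P ≃ Fin n) (x y : P) : Prop := x < y ∧ ∀ z, x < z → lab L y ≤ lab L z

/-- `x` belongs to the promotion chain of `L`: it is reached from the element with label `1` by
taking `L`-successors. -/
def InChain (L : P ≃ Fin n) (x : P) : Prop :=
  ∃ v, lab L v = 1 ∧ Relation.ReflTransGen (IsSucc L) v x

/-- The label of `x` in the extended promotion of `L`: `L(x) - 1` if `x` is not in the promotion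
chain, `L(y) - 1` if `x` is in the promotion chain and `y` is its `L`-successor, and `n` for the
maximal element of the promotion chain. -/
noncomputable def promoLab (L : P ≃ Fin n) (x : P) : ℕ :=
  if InChain L x then (if h : ∃ y, IsSucc L x y then lab L h.choose - 1 else n)
  else lab L x - 1

theorem lab_injective (L : P ≃ Fin n) : Function.Injective (lab L) := by
  intro x y h
  unfold lab at h
  exact L.injective (Fin.ext (Nat.succ_injective h))

theorem isSucc_unique {L : P ≃ Fin n} {x y z : P} (hy : IsSucc L x y) (hz : IsSucc L x z) :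
    y = z :=
  lab_injective L (le_antisymm (hy.2 z hz.1) (hz.2 y hy.1))

theorem exists_isSucc (L : P ≃ Fin n) {x z : P} (h : x < z) : ∃ y, IsSucc L x y := by
  obtain ⟨y, hy, hmin⟩ := Finset.exists_min_image (Finset.univ.filter fun y => x < y) (lab L)
    ⟨z, Finset.mem_filter.2 ⟨Finset.mem_univ _, h⟩⟩
  refine ⟨y, (Finset.mem_filter.1 hy).2, fun w hw => ?_⟩
  exact hmin w (Finset.mem_filter.2 ⟨Finset.mem_univ _, hw⟩)

theorem le_of_reach {L : P ≃ Fin n} {x y : P} (h : Relation.ReflTransGen (IsSucc L) x y) :
    x ≤ y := by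
  induction h with
  | refl => exact le_rfl
  | tail _ h ih => exact ih.trans h.1.le

theorem inChain_succ {L : P ≃ Fin n} {x y : P} (hx : InChain L x) (h : IsSucc L x y) :
    InChain L y := by
  obtain ⟨v, hv, hvx⟩ := hx
  exact ⟨v, hv, hvx.tail h⟩

theorem reach_total {L : P ≃ Fin n} {x y : P} (hx : InChain L x) (hy : InChain L y) :
    Relation.ReflTransGen (IsSucc L) x y ∨ Relation.ReflTransGen (IsSucc L) y x := by
  obtain ⟨v, hv, hvx⟩ := hx
  obtain ⟨w, hw, hwy⟩ := hy
  have : v = w := lab_injective L (by rw [hv, hw])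
  subst this
  exact Relation.ReflTransGen.total_of_right_unique (fun _ _ _ h1 h2 => isSucc_unique h1 h2)
    hvx hwy

theorem succ_le {L : P ≃ Fin n} {x y z : P} (hx : InChain L x) (hz : InChain L z)
    (hxz : x < z) (hy : IsSucc L x y) : y ≤ z := by
  rcases reach_total hx hz with h | h
  · rcases h.cases_head with h | ⟨c, hc, hcz⟩
    · exact absurd hxz (by rw [h]; exact lt_irrefl z)
    · rw [isSucc_unique hy hc]
      exact le_of_reach hcz
  · exact absurd (le_of_reach h) (not_le_of_gt hxz)

theorem lab_ne_one_of_not {L : P ≃ Fin n} {x : P} (h : ¬ InChain L x) : lab L x ≠ 1 :=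
  fun h1 => h ⟨x, h1, Relation.ReflTransGen.refl⟩

theorem lab_ne_one_of_succ {L : P ≃ Fin n} {x y : P} (hx : InChain L x) (h : IsSucc L x y) :
    lab L y ≠ 1 := by
  intro h1
  obtain ⟨v, hv, hvx⟩ := hx
  have h2 : v = y := lab_injective L (by rw [hv, h1])
  have h3 := le_of_reach hvx
  rw [h2] at h3
  exact absurd h.1 (not_lt_of_ge h3)

theorem lab_pos (L : P ≃ Fin n) (x : P) : 1 ≤ lab L x := Nat.succ_pos _

theorem lab_le (L : P ≃ Fin n) (x : P) : lab L x ≤ n := (L x).2

theorem promoLab_not {L : P ≃ Fin n} {x : P} (h : ¬ InChain L x) :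
    promoLab L x + 1 = lab L x := by
  unfold promoLab
  rw [if_neg h]
  have := lab_pos L x
  omega

theorem promoLab_succ {L : P ≃ Fin n} {x y : P} (hx : InChain L x) (h : IsSucc L x y) :
    promoLab L x + 1 = lab L y := by
  unfold promoLab
  have h1 : ∃ y, IsSucc L x y := ⟨y, h⟩
  rw [if_pos hx, dif_pos h1, isSucc_unique h1.choose_spec h]
  have := lab_pos L y
  omega

theorem promoLab_max {L : P ≃ Fin n} {x : P} (hx : InChain L x) (h : ¬ ∃ y, IsSucc L x y) :
    promoLab L x = n := by
  unfold promoLab
  rw [if_pos hx, dif_neg h]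

theorem promoLab_pos (L : P ≃ Fin n) (x : P) : 1 ≤ promoLab L x := by
  by_cases hx : InChain L x
  · by_cases h : ∃ y, IsSucc L x y
    · obtain ⟨y, hy⟩ := h
      have h1 := promoLab_succ hx hy
      have h2 := lab_ne_one_of_succ hx hy
      have h3 := lab_pos L y
      omega
    · rw [promoLab_max hx h]
      have := lab_pos L x
      have := lab_le L x
      omega
  · have h1 := promoLab_not hx
    have h2 := lab_ne_one_of_not hx
    have h3 := lab_pos L x
    omega

theorem promoLab_le (L : P ≃ Fin n) (x : P) : promoLab L x ≤ n := by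
  by_cases hx : InChain L x
  · by_cases h : ∃ y, IsSucc L x y
    · obtain ⟨y, hy⟩ := h
      have h1 := promoLab_succ hx hy
      have h3 := lab_le L y
      omega
    · rw [promoLab_max hx h]
  · have h1 := promoLab_not hx
    have h3 := lab_le L x
    omega

theorem promoLab_injective (L : P ≃ Fin n) : Function.Injective (promoLab L) := by
  -- two chain elements
  have key : ∀ x y : P, InChain L x → InChain L y → x < y → promoLab L x ≠ promoLab L y := by
    intro x y hx hy hxy he
    obtain ⟨x', hx'⟩ := exists_isSucc L hxy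
    have h1 := promoLab_succ hx hx'
    by_cases h : ∃ z, IsSucc L y z
    · obtain ⟨y', hy'⟩ := h
      have h2 := promoLab_succ hy hy'
      have h3 : x' = y' := lab_injective L (by omega)
      have h4 := succ_le hx hy hxy hx'
      rw [h3] at h4
      exact absurd hy'.1 (not_lt_of_ge h4)
    · have h2 := promoLab_max hy h
      have h3 := lab_le L x'
      omega
  -- one chain element
  have key2 : ∀ x y : P, InChain L x → ¬ InChain L y → promoLab L x ≠ promoLab L y := by
    intro x y hx hy he
    have h0 := promoLab_not hy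
    by_cases h : ∃ z, IsSucc L x z
    · obtain ⟨x', hx'⟩ := h
      have h1 := promoLab_succ hx hx'
      have h2 : x' = y := lab_injective L (by omega)
      exact hy (h2 ▸ inChain_succ hx hx')
    · have h1 := promoLab_max hx h
      have h2 := lab_le L y
      omega
  intro x y he
  by_cases hx : InChain L x <;> by_cases hy : InChain L y
  · by_contra hne
    rcases reach_total hx hy with h | h
    · exact key x y hx hy (lt_of_le_of_ne (le_of_reach h) hne) he
    · exact key y x hy hx (lt_of_le_of_ne (le_of_reach h) (Ne.symm hne)) he.symm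
  · exact absurd he (key2 x y hx hy)
  · exact absurd he.symm (key2 y x hy hx)
  · have h1 := promoLab_not hx
    have h2 := promoLab_not hy
    exact lab_injective L (by omega)

/-- The labels of the extended promotion, as elements of `Fin n`. -/
noncomputable def promoFun (L : P ≃ Fin n) (x : P) : Fin n :=
  ⟨promoLab L x - 1, by
    have := promoLab_pos L x
    have := promoLab_le L x
    omega⟩

theorem promoFun_bijective (L : P ≃ Fin n) : Function.Bijective (promoFun L) := by
  rw [Fintype.bijective_iff_injective_and_card]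
  refine ⟨fun x y h => ?_, Fintype.card_congr L⟩
  have h1 : promoLab L x - 1 = promoLab L y - 1 := congrArg Fin.val h
  have h2 := promoLab_pos L x
  have h3 := promoLab_pos L y
  exact promoLab_injective L (by omega)

/-- Extended promotion. -/
noncomputable def promotion (L : P ≃ Fin n) : P ≃ Fin n :=
  Equiv.ofBijective (promoFun L) (promoFun_bijective L)

theorem lab_promotion (L : P ≃ Fin n) (x : P) : lab (promotion L) x = promoLab L x := by
  show promoLab L x - 1 + 1 = promoLab L x
  have := promoLab_pos L x
  omega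

/-- The fibre of `f` over `x`. -/
noncomputable def fib {X : Type u} [Fintype X] (f : X → X) (x : X) : Finset X :=
  Finset.univ.filter fun y => f y = x

theorem mem_fib {X : Type u} [Fintype X] {f : X → X} {x y : X} : y ∈ fib f x ↔ f y = x := by
  unfold fib
  rw [Finset.mem_filter]
  simp

/-- The degree of noninvertibility of a map of a finite set to itself. -/
noncomputable def deg {X : Type u} [Fintype X] (f : X → X) : ℚ :=
  (∑ x : X, ((fib f x).card : ℚ) ^ 2) / Fintype.card X

end defs

/-! ### An inequality for posets -/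

section ineq

variable {P : Type u} [PartialOrder P]

/-- Number of elements of `A` strictly above `x`. -/
noncomputable def up (A : Finset P) (x : P) : ℕ := (A.filter fun y => x < y).card

/-- Number of elements of `A` not below or equal to `x`. -/
noncomputable def nb (A : Finset P) (x : P) : ℕ := (A.filter fun y => ¬ y ≤ x).card

/-- The polynomial. -/
def Qp (a u : ℚ) : ℚ := (a + u) * ((a + 1) * (a + 2) + (u + 1) * (u + 2))

theorem nb_erase (A : Finset P) {m x : P} (hm : m ∈ A) (h : ¬ m ≤ x) :
    nb A x = nb (A.erase m) x + 1 := by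
  unfold nb
  rw [Finset.filter_erase, Finset.card_erase_of_mem (Finset.mem_filter.2 ⟨hm, h⟩)]
  have : 0 < (A.filter fun y => ¬ y ≤ x).card :=
    Finset.card_pos.2 ⟨m, Finset.mem_filter.2 ⟨hm, h⟩⟩
  omega

theorem nb_erase' (A : Finset P) {m x : P} (h : m ≤ x) :
    nb A x = nb (A.erase m) x := by
  unfold nb
  rw [Finset.filter_erase, Finset.erase_eq_of_notMem]
  rw [Finset.mem_filter]
  exact fun h1 => h1.2 h

theorem up_erase' (A : Finset P) {m x : P} (h : ¬ x < m) :
    up A x = up (A.erase m) x := by
  unfold up
  rw [Finset.filter_erase, Finset.erase_eq_of_notMem]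
  rw [Finset.mem_filter]
  exact fun h1 => h h1.2

theorem nb_lt (A : Finset P) {x : P} (hx : x ∈ A) : nb A x < A.card := by
  unfold nb
  apply Finset.card_lt_card
  refine ⟨Finset.filter_subset _ _, fun h => ?_⟩
  have := h hx
  rw [Finset.mem_filter] at this
  exact this.2 le_rfl

theorem up_lt (A : Finset P) {x : P} (hx : x ∈ A) : up A x < A.card := by
  unfold up
  apply Finset.card_lt_card
  refine ⟨Finset.filter_subset _ _, fun h => ?_⟩
  have := h hx
  rw [Finset.mem_filter] at this
  exact lt_irrefl _ this.2

theorem Qp_step {a u N k : ℚ} (ha0 : 0 ≤ a) (hu0 : 0 ≤ u) (ha : a + 1 ≤ N) (hu : u ≤ k) :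
    Qp (a + 1) u - Qp a u ≤ (k + 1) * (k + 2) + (N + 1) * (3 * N + 2 * k) := by
  have h1 : Qp (a + 1) u - Qp a u = (u + 1) * (u + 2) + (a + 2) * (3 * (a + 1) + 2 * u) := by
    unfold Qp; ring
  rw [h1]
  have h2 : (u + 1) * (u + 2) ≤ (k + 1) * (k + 2) := by
    apply mul_le_mul <;> linarith
  have h3 : (a + 2) * (3 * (a + 1) + 2 * u) ≤ (N + 1) * (3 * N + 2 * k) := by
    apply mul_le_mul <;> linarith
  linarith

theorem sum_Qp (A : Finset P) :
    ∑ x ∈ A, Qp (nb A x) (up A x) ≤
      ((A.card : ℚ) - 1) * A.card * (A.card + 1) * (A.card + 2) := by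
  induction h : A.card generalizing A with
  | zero =>
    rw [Finset.card_eq_zero] at h
    subst h
    simp
  | succ N ih =>
    have hne : A.Nonempty := by
      rw [← Finset.card_pos]; omega
    obtain ⟨m, hm, hmax⟩ := Finset.exists_max_image A (up A) hne
    have hmin : ∀ x ∈ A, ¬ x < m := by
      intro x hx hlt
      have h1 : up A m < up A x := by
        unfold up
        apply Finset.card_lt_card
        refine ⟨fun y hy => ?_, fun hs => ?_⟩
        · rw [Finset.mem_filter] at hy ⊢
          exact ⟨hy.1, hlt.trans hy.2⟩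
        · have := hs (Finset.mem_filter.2 ⟨hm, hlt⟩)
          rw [Finset.mem_filter] at this
          exact lt_irrefl _ this.2
      exact absurd (hmax x hx) (not_le.2 h1)
    have hcard : (A.erase m).card = N := by
      rw [Finset.card_erase_of_mem hm, h]; rfl
    have hih := ih (A.erase m) hcard
    set k : ℚ := (up A m : ℚ) with hk
    have hkN : k ≤ N := by
      have := up_lt A hm
      rw [h] at this
      rw [hk]
      exact_mod_cast Nat.lt_succ_iff.1 this
    have hk0 : 0 ≤ k := by rw [hk]; positivity
    -- the element m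
    have hnm : nb A m = N := by
      have h1 := nb_lt A hm
      have h2 : (A.erase m) ⊆ A.filter fun y => ¬ y ≤ m := by
        intro y hy
        rw [Finset.mem_erase] at hy
        rw [Finset.mem_filter]
        refine ⟨hy.2, fun hle => ?_⟩
        exact hmin y hy.2 (lt_of_le_of_ne hle hy.1)
      have h3 := Finset.card_le_card h2
      rw [hcard] at h3
      rw [h] at h1
      unfold nb at h1 ⊢
      omega
    -- the other elements
    set D : ℚ := (k + 1) * (k + 2) + (N + 1) * (3 * N + 2 * k) with hD
    have hx : ∀ x ∈ A.erase m, Qp (nb A x) (up A x) ≤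
        Qp (nb (A.erase m) x) (up (A.erase m) x) + if m < x then 0 else D := by
      intro x hx
      have hxA := Finset.mem_of_mem_erase hx
      have hxm := Finset.ne_of_mem_erase hx
      rw [← up_erase' A (hmin x hxA)]
      by_cases hmx : m < x
      · rw [if_pos hmx, nb_erase' A hmx.le, add_zero]
      · rw [if_neg hmx]
        have hmx' : ¬ m ≤ x := fun hle => hmx (lt_of_le_of_ne hle (Ne.symm hxm))
        rw [nb_erase A hm hmx']
        have h1 := nb_lt (A.erase m) hx
        rw [hcard] at h1
        have h2 := Qp_step (a := (nb (A.erase m) x : ℚ)) (u := (up A x : ℚ)) (N := N) (k := k)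
          (by positivity) (by positivity) (by exact_mod_cast h1)
          (by rw [hk]; exact_mod_cast hmax x hxA)
        push_cast
        linarith
    have hsum : ∑ x ∈ A.erase m, (if m < x then (0 : ℚ) else D) = (N - k) * D := by
      rw [Finset.sum_ite, Finset.sum_const_zero, zero_add, Finset.sum_const, nsmul_eq_mul]
      congr 1
      have h1 := Finset.card_filter_add_card_filter_not (s := A.erase m) (fun x => m < x)
      have h2 : ((A.erase m).filter fun x => m < x).card = up A m := by
        rw [up_erase' A (lt_irrefl m)]; rfl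
      rw [h2, hcard] at h1
      rw [hk, ← h1]
      push_cast
      ring
    rw [← Finset.add_sum_erase A _ hm, hnm]
    have h1 := Finset.sum_le_sum hx
    rw [Finset.sum_add_distrib, hsum] at h1
    have h2 : Qp N k + (N - k) * D ≤ 4 * N * (N + 1) * (N + 2) := by
      have : 4 * N * (N + 1) * (N + 2) - (Qp N k + (N - k) * D) =
          (N - k) * (6 * N + 2 - 2 * k) := by
        rw [hD]; unfold Qp; ring
      have h3 : 0 ≤ ((N : ℚ) - k) * (6 * N + 2 - 2 * k) := by
        apply mul_nonneg
        · linarith
        · have : (0 : ℚ) ≤ N := by positivity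
          linarith
      linarith
    push_cast
    have h4 : ((N : ℚ) + 1 - 1) * (N + 1) * (N + 1 + 1) * (N + 1 + 2) =
        (N - 1) * N * (N + 1) * (N + 2) + 4 * N * (N + 1) * (N + 2) := by ring
    rw [h4]
    linarith

end ineq

/-! ### Averages over orderings -/

section avg

variable {P : Type u}

/-- The average of `f` over all orderings of the finite set `s` with `k` elements. -/
noncomputable def Avg : ℕ → Finset P → (List P → ℚ) → ℚ
  | 0, _, f => f []
  | k + 1, s, f => (∑ x ∈ s, Avg k (s.erase x) (fun l => f (x :: l))) / (k + 1)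

theorem Avg_zero (s : Finset P) (f : List P → ℚ) : Avg 0 s f = f [] := rfl

theorem Avg_succ (k : ℕ) (s : Finset P) (f : List P → ℚ) :
    Avg (k + 1) s f = (∑ x ∈ s, Avg k (s.erase x) (fun l => f (x :: l))) / (k + 1) := rfl

theorem Avg_mono (k : ℕ) (s : Finset P) {f g : List P → ℚ} (h : ∀ l, f l ≤ g l) :
    Avg k s f ≤ Avg k s g := by
  induction k generalizing s f g with
  | zero => exact h []
  | succ k ih =>
    rw [Avg_succ, Avg_succ]
    apply div_le_div_of_nonneg_right _ (by positivity)
    exact Finset.sum_le_sum fun x _ => ih _ fun l => h _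

theorem Avg_lin (k : ℕ) (s : Finset P) (c d : ℚ) (f g : List P → ℚ) :
    Avg k s (fun l => c * f l + d * g l) = c * Avg k s f + d * Avg k s g := by
  induction k generalizing s f g with
  | zero => rfl
  | succ k ih =>
    simp only [Avg_succ, ih, Finset.sum_add_distrib, ← Finset.mul_sum]
    ring

theorem Avg_nonneg (k : ℕ) (s : Finset P) {f : List P → ℚ} (h : ∀ l, 0 ≤ f l) :
    0 ≤ Avg k s f := by
  have h1 := Avg_mono k s h
  have h2 : Avg k s (fun _ => (0 : ℚ)) = 0 := by
    have := Avg_lin k s 0 0 (fun _ => 0) (fun _ => 0)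
    simpa using this
  rwa [h2] at h1

/-- Marginalisation. -/
theorem Avg_filter (k : ℕ) (s : Finset P) (hs : s.card = k) (p : P → Prop) [DecidablePred p]
    (f : List P → ℚ) :
    Avg k s (fun l => f (l.filter (fun x => decide (p x)))) =
      Avg (s.filter p).card (s.filter p) f := by
  induction k generalizing s f with
  | zero =>
    rw [Finset.card_eq_zero] at hs
    subst hs
    rfl
  | succ k ih =>
    rw [Avg_succ]
    have hcard : ∀ x ∈ s, (s.erase x).card = k := by
      intro x hx
      rw [Finset.card_erase_of_mem hx, hs]; rfl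
    have hterm : ∀ x ∈ s, Avg k (s.erase x)
        (fun l => f ((x :: l).filter (fun x => decide (p x)))) =
        if p x then Avg ((s.filter p).card - 1) ((s.filter p).erase x) (fun l => f (x :: l))
        else Avg (s.filter p).card (s.filter p) f := by
      intro x hx
      by_cases hp : p x
      · rw [if_pos hp]
        simp only [List.filter_cons, hp, decide_true, if_true]
        rw [ih (s.erase x) (hcard x hx) (fun l => f (x :: l)), Finset.filter_erase]
        rw [Finset.card_erase_of_mem (Finset.mem_filter.2 ⟨hx, hp⟩)]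
      · rw [if_neg hp]
        simp only [List.filter_cons, hp, decide_false, if_false, Bool.false_eq_true]
        rw [ih (s.erase x) (hcard x hx) f, Finset.filter_erase, Finset.erase_eq_of_notMem]
        rw [Finset.mem_filter]
        exact fun h => hp h.2
    rw [Finset.sum_congr rfl hterm, Finset.sum_ite, Finset.sum_const, nsmul_eq_mul]
    have h1 := Finset.card_filter_add_card_filter_not (s := s) p
    rw [hs] at h1
    have h2 : ((s.filter fun x => ¬ p x).card : ℚ) = k + 1 - (s.filter p).card := by
      have : ((s.filter p).card : ℚ) + (s.filter fun x => ¬ p x).card = k + 1 := by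
        exact_mod_cast h1
      linarith
    rw [h2]
    have hk : (k : ℚ) + 1 ≠ 0 := by positivity
    generalize hj : (s.filter p).card = j
    rcases j with _ | j
    · have h3 : s.filter p = ∅ := Finset.card_eq_zero.1 hj
      rw [h3, Finset.sum_empty, Avg_zero]
      push_cast
      field_simp
      ring
    · rw [Avg_succ]
      have hj' : (j : ℚ) + 1 ≠ 0 := by positivity
      push_cast
      field_simp
      ring

end avg

/-! ### Golden elements and golden chains of an ordering -/

section gold

variable {P : Type u} [PartialOrder P] [Fintype P]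

/-- No element above `x` comes before `x` in the list. -/
def golden : List P → P → Prop
  | [], _ => True
  | y :: l, x => x = y ∨ (¬ x < y ∧ golden l x)

theorem golden_filter (l : List P) (p : P → Prop) [DecidablePred p] {x : P} (hp : p x) (h : golden l x) :
    golden (l.filter (fun y => decide (p y))) x := by
  induction l with
  | nil => exact h
  | cons y l ih =>
    by_cases hy : p y
    · simp only [List.filter_cons, hy, decide_true, if_true]
      rcases h with h | h
      · exact Or.inl h
      · exact Or.inr ⟨h.1, ih h.2⟩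
    · simp only [List.filter_cons, hy, decide_false, Bool.false_eq_true, if_false]
      rcases h with h | h
      · subst h; exact absurd hp hy
      · exact ih h.2

/-- The chains of golden elements of the ordering `l` that lie below `v`. -/
noncomputable def chains (v : P) (l : List P) : Finset (Finset P) :=
  Finset.univ.filter fun S => (∀ x ∈ S, x ∈ l ∧ x < v ∧ golden l x) ∧
    ∀ x ∈ S, ∀ y ∈ S, x ≤ y ∨ y ≤ x

theorem mem_chains {v : P} {l : List P} {S : Finset P} : S ∈ chains v l ↔
    (∀ x ∈ S, x ∈ l ∧ x < v ∧ golden l x) ∧ ∀ x ∈ S, ∀ y ∈ S, x ≤ y ∨ y ≤ x := by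
  unfold chains
  rw [Finset.mem_filter]
  simp

/-- The number of golden chains below `v`. -/
noncomputable def gc (v : P) (l : List P) : ℚ := ((chains v l).card : ℚ)

theorem gc_nil (v : P) : gc v [] = 1 := by
  have : chains v [] = {∅} := by
    ext S
    rw [mem_chains, Finset.mem_singleton]
    constructor
    · rintro ⟨h, -⟩
      rw [Finset.eq_empty_iff_forall_notMem]
      intro x hx
      exact absurd (h x hx).1 (by simp)
    · rintro rfl
      simp
  unfold gc
  rw [this]
  simp

theorem gc_nonneg (v : P) (l : List P) : 0 ≤ gc v l := by unfold gc; positivity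

theorem gc_cons (v x : P) (l : List P) :
    gc v (x :: l) ≤ gc v (l.filter (fun y => decide (¬ y ≤ x))) +
      if x < v then gc v (l.filter (fun y => decide (x < y))) else 0 := by
  have hsub : chains v (x :: l) ⊆ chains v (l.filter (fun y => decide (¬ y ≤ x))) ∪
      (if x < v then (chains v (l.filter (fun y => decide (x < y)))).image (insert x) else ∅) := by
    intro S hS
    rw [mem_chains] at hS
    obtain ⟨hS1, hS2⟩ := hS
    rw [Finset.mem_union]
    by_cases hx : x ∈ S
    · right
      rw [if_pos (hS1 x hx).2.1, Finset.mem_image]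
      refine ⟨S.erase x, ?_, Finset.insert_erase hx⟩
      rw [mem_chains]
      refine ⟨fun y hy => ?_, fun y hy z hz => hS2 y (Finset.mem_of_mem_erase hy) z
        (Finset.mem_of_mem_erase hz)⟩
      rw [Finset.mem_erase] at hy
      obtain ⟨h1, h2, h3⟩ := hS1 y hy.2
      rcases h3 with h3 | h3
      · exact absurd h3 hy.1
      have h4 : x < y := by
        rcases hS2 x hx y hy.2 with h | h
        · exact lt_of_le_of_ne h (Ne.symm hy.1)
        · exact absurd (lt_of_le_of_ne h hy.1) h3.1
      refine ⟨?_, h2, golden_filter l _ h4 h3.2⟩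
      rw [List.mem_filter]
      refine ⟨?_, by simpa using h4⟩
      rcases List.mem_cons.1 h1 with h | h
      · exact absurd h hy.1
      · exact h
    · left
      rw [mem_chains]
      refine ⟨fun y hy => ?_, hS2⟩
      obtain ⟨h1, h2, h3⟩ := hS1 y hy
      have hyx : y ≠ x := fun h => hx (h ▸ hy)
      rcases h3 with h3 | h3
      · exact absurd h3 hyx
      have h4 : ¬ y ≤ x := fun h => h3.1 (lt_of_le_of_ne h hyx)
      refine ⟨?_, h2, golden_filter l (fun y => ¬ y ≤ x) h4 h3.2⟩
      rw [List.mem_filter]
      refine ⟨?_, by simpa using h4⟩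
      rcases List.mem_cons.1 h1 with h | h
      · exact absurd h hyx
      · exact h
  have h1 := (Finset.card_le_card hsub).trans (Finset.card_union_le _ _)
  unfold gc
  by_cases hxv : x < v
  · rw [if_pos hxv] at h1 ⊢
    have h2 := h1.trans (Nat.add_le_add_left Finset.card_image_le _)
    exact_mod_cast h2
  · rw [if_neg hxv] at h1 ⊢
    rw [Finset.card_empty, add_zero] at h1
    rw [add_zero]
    exact_mod_cast h1

end gold

/-! ### The main induction -/

section main

variable {P : Type u} [PartialOrder P] [Fintype P]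

/-- The maximal elements of `A`. -/
noncomputable def mx (A : Finset P) : Finset P := A.filter fun v => ∀ y ∈ A, ¬ v < y

/-- The second moment of the number of golden chains below `v`. -/
noncomputable def sm (A : Finset P) (v : P) : ℚ :=
  Avg (A.erase v).card (A.erase v) (fun l => gc v l ^ 2)

theorem sm_nonneg (A : Finset P) (v : P) : 0 ≤ sm A v :=
  Avg_nonneg _ _ fun _ => by positivity

/-- The sum of second moments over the maximal elements. -/
noncomputable def SS (A : Finset P) : ℚ := ∑ v ∈ mx A, sm A v

theorem pair_bound (A : Finset P) {v x : P} (hv : v ∈ mx A) (hx : x ∈ A.erase v) :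
    Avg ((A.erase v).erase x).card ((A.erase v).erase x) (fun l => gc v (x :: l) ^ 2) ≤
      ((nb A x : ℚ) + up A x) / nb A x * sm (A.filter fun y => ¬ y ≤ x) v +
      if x < v then ((nb A x : ℚ) + up A x) / up A x * sm (A.filter fun y => x < y) v
        else 0 := by
  unfold mx at hv
  rw [Finset.mem_filter] at hv
  rw [Finset.mem_erase] at hx
  obtain ⟨hvA, hvm⟩ := hv
  have hvx : ¬ v ≤ x := fun h => hvm x hx.2 (lt_of_le_of_ne h (Ne.symm hx.1))
  have hapos : 0 < nb A x := Finset.card_pos.2 ⟨v, Finset.mem_filter.2 ⟨hvA, hvx⟩⟩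
  have ha : (0 : ℚ) < nb A x := by exact_mod_cast hapos
  have e1 : ((A.erase v).erase x).filter (fun y => ¬ y ≤ x) =
      (A.filter fun y => ¬ y ≤ x).erase v := by
    ext y
    rw [Finset.mem_filter, Finset.mem_erase, Finset.mem_erase, Finset.mem_erase,
      Finset.mem_filter]
    constructor
    · rintro ⟨⟨h1, h2, h3⟩, h4⟩
      exact ⟨h2, h3, h4⟩
    · rintro ⟨h2, h3, h4⟩
      exact ⟨⟨fun h => h4 h.le, h2, h3⟩, h4⟩
  have e2 : ((A.erase v).erase x).filter (fun y => x < y) =
      (A.filter fun y => x < y).erase v := by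
    ext y
    rw [Finset.mem_filter, Finset.mem_erase, Finset.mem_erase, Finset.mem_erase,
      Finset.mem_filter]
    constructor
    · rintro ⟨⟨h1, h2, h3⟩, h4⟩
      exact ⟨h2, h3, h4⟩
    · rintro ⟨h2, h3, h4⟩
      exact ⟨⟨fun h => absurd h4 (by rw [h]; exact lt_irrefl x), h2, h3⟩, h4⟩
  have f1 := Avg_filter ((A.erase v).erase x).card ((A.erase v).erase x) rfl
    (fun y => ¬ y ≤ x) (fun l => gc v l ^ 2)
  rw [e1] at f1
  change _ = sm (A.filter fun y => ¬ y ≤ x) v at f1
  by_cases hxv : x < v
  · rw [if_pos hxv]
    have hupos : 0 < up A x := Finset.card_pos.2 ⟨v, Finset.mem_filter.2 ⟨hvA, hxv⟩⟩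
    have hu : (0 : ℚ) < up A x := by exact_mod_cast hupos
    have f2 := Avg_filter ((A.erase v).erase x).card ((A.erase v).erase x) rfl
      (fun y => x < y) (fun l => gc v l ^ 2)
    rw [e2] at f2
    change _ = sm (A.filter fun y => x < y) v at f2
    rw [← f1, ← f2, ← Avg_lin]
    apply Avg_mono
    intro l
    have h1 := gc_cons v x l
    rw [if_pos hxv] at h1
    have h2 := gc_nonneg v (x :: l)
    set p := gc v (l.filter (fun y => decide (¬ y ≤ x)))
    set q := gc v (l.filter (fun y => decide (x < y)))
    have h3 : gc v (x :: l) ^ 2 ≤ (p + q) ^ 2 := by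
      apply pow_le_pow_left₀ h2 h1
    refine h3.trans ?_
    set a : ℚ := (nb A x : ℚ)
    set u : ℚ := (up A x : ℚ)
    have h4 : (a + u) / a * p ^ 2 + (a + u) / u * q ^ 2 - (p + q) ^ 2 =
        (u * p - a * q) ^ 2 / (a * u) := by
      field_simp
      ring
    have h5 : 0 ≤ (u * p - a * q) ^ 2 / (a * u) := by positivity
    linarith
  · rw [if_neg hxv, add_zero, ← f1]
    have h0 : ((nb A x : ℚ) + up A x) / nb A x *
        Avg ((A.erase v).erase x).card ((A.erase v).erase x)
          (fun l => gc v (l.filter (fun y => decide (¬ y ≤ x))) ^ 2) =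
        Avg ((A.erase v).erase x).card ((A.erase v).erase x)
          (fun l => ((nb A x : ℚ) + up A x) / nb A x *
            gc v (l.filter (fun y => decide (¬ y ≤ x))) ^ 2 +
            0 * gc v (l.filter (fun y => decide (¬ y ≤ x))) ^ 2) := by
      rw [Avg_lin]; ring
    rw [h0]
    apply Avg_mono
    intro l
    have h1 := gc_cons v x l
    rw [if_neg hxv, add_zero] at h1
    have h2 := gc_nonneg v (x :: l)
    have h3 : gc v (x :: l) ^ 2 ≤ gc v (l.filter (fun y => decide (¬ y ≤ x))) ^ 2 := by
      apply pow_le_pow_left₀ h2 h1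
    refine h3.trans ?_
    have h4 : (1 : ℚ) ≤ ((nb A x : ℚ) + up A x) / nb A x := by
      rw [le_div_iff₀ ha]
      have : (0 : ℚ) ≤ up A x := by positivity
      linarith
    have h5 : 0 ≤ gc v (l.filter (fun y => decide (¬ y ≤ x))) ^ 2 := by positivity
    nlinarith

theorem div_mul_le (c a : ℚ) (hc : 0 ≤ c) (ha : 0 ≤ a) {S : ℚ}
    (hS : 6 * S ≤ a * (a + 1) * (a + 2)) : 6 * (c / a * S) ≤ c * ((a + 1) * (a + 2)) := by
  rcases ha.eq_or_lt with h | h
  · rw [← h]
    simp
    linarith
  · have h1 : 6 * (c / a * S) = c / a * (6 * S) := by ring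
    rw [h1]
    calc c / a * (6 * S) ≤ c / a * (a * (a + 1) * (a + 2)) :=
          mul_le_mul_of_nonneg_left hS (by positivity)
      _ = c * ((a + 1) * (a + 2)) := by field_simp

theorem SS_le (A : Finset P) :
    6 * SS A ≤ (A.card : ℚ) * (A.card + 1) * (A.card + 2) := by
  induction h : A.card using Nat.strong_induction_on generalizing A with
  | _ n ih =>
  rcases n with _ | n
  · rw [Finset.card_eq_zero] at h
    subst h
    simp [SS, mx]
  rcases n with _ | n
  · obtain ⟨v, rfl⟩ := Finset.card_eq_one.1 h
    have h1 : mx ({v} : Finset P) = {v} := by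
      unfold mx
      rw [Finset.filter_eq_self]
      intro x hx y hy
      rw [Finset.mem_singleton] at hx hy
      rw [hx, hy]
      exact lt_irrefl v
    unfold SS sm
    rw [h1, Finset.sum_singleton]
    have h2 : (({v} : Finset P).erase v) = ∅ := by simp
    rw [h2, Finset.card_empty, Avg_zero, gc_nil]
    norm_num
  -- the step
  have hstep : ∀ v ∈ mx A, ((n : ℚ) + 1) * sm A v ≤ ∑ x ∈ A.erase v,
      (((nb A x : ℚ) + up A x) / nb A x * sm (A.filter fun y => ¬ y ≤ x) v +
      if x < v then ((nb A x : ℚ) + up A x) / up A x * sm (A.filter fun y => x < y) v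
        else 0) := by
    intro v hv
    have hvA : v ∈ A := (Finset.mem_filter.1 hv).1
    have hc1 : (A.erase v).card = n + 1 := by
      rw [Finset.card_erase_of_mem hvA, h]; rfl
    have h1 : ((n : ℚ) + 1) * sm A v = ∑ x ∈ A.erase v,
        Avg ((A.erase v).erase x).card ((A.erase v).erase x) (fun l => gc v (x :: l) ^ 2) := by
      unfold sm
      rw [hc1, Avg_succ]
      have hn : (n : ℚ) + 1 ≠ 0 := by positivity
      rw [mul_div_cancel₀ _ hn]
      refine Finset.sum_congr rfl fun x hx => ?_
      rw [Finset.card_erase_of_mem hx, hc1]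
      rfl
    rw [h1]
    exact Finset.sum_le_sum fun x hx => pair_bound A hv hx
  have h2 : ((n : ℚ) + 1) * SS A ≤ ∑ v ∈ mx A, ∑ x ∈ A.erase v,
      (((nb A x : ℚ) + up A x) / nb A x * sm (A.filter fun y => ¬ y ≤ x) v +
      if x < v then ((nb A x : ℚ) + up A x) / up A x * sm (A.filter fun y => x < y) v
        else 0) := by
    unfold SS
    rw [Finset.mul_sum]
    exact Finset.sum_le_sum hstep
  rw [Finset.sum_comm' (s' := fun x => (mx A).erase x) (t' := A) (by
    intro v x
    constructor
    · rintro ⟨h1, h2⟩
      rw [Finset.mem_erase] at h2 ⊢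
      exact ⟨⟨Ne.symm h2.1, h1⟩, h2.2⟩
    · rintro ⟨h1, h2⟩
      rw [Finset.mem_erase] at h1 ⊢
      exact ⟨h1.2, Ne.symm h1.1, h2⟩)] at h2
  have h3 : ∀ x ∈ A, ∑ v ∈ (mx A).erase x,
      (((nb A x : ℚ) + up A x) / nb A x * sm (A.filter fun y => ¬ y ≤ x) v +
      if x < v then ((nb A x : ℚ) + up A x) / up A x * sm (A.filter fun y => x < y) v
        else 0) ≤
      ((nb A x : ℚ) + up A x) / nb A x * SS (A.filter fun y => ¬ y ≤ x) +
      ((nb A x : ℚ) + up A x) / up A x * SS (A.filter fun y => x < y) := by
    intro x hx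
    rw [Finset.sum_add_distrib]
    apply add_le_add
    · rw [← Finset.mul_sum]
      apply mul_le_mul_of_nonneg_left _ (by positivity)
      unfold SS
      apply Finset.sum_le_sum_of_subset_of_nonneg
      · intro v hv
        rw [Finset.mem_erase] at hv
        unfold mx at hv ⊢
        rw [Finset.mem_filter] at hv ⊢
        rw [Finset.mem_filter]
        refine ⟨⟨hv.2.1, fun hle => hv.2.2 x hx (lt_of_le_of_ne hle hv.1)⟩, fun y hy => ?_⟩
        exact hv.2.2 y (Finset.mem_filter.1 hy).1
      · intro v _ _
        exact sm_nonneg _ _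
    · rw [← Finset.sum_filter, ← Finset.mul_sum]
      apply mul_le_mul_of_nonneg_left _ (by positivity)
      unfold SS
      apply Finset.sum_le_sum_of_subset_of_nonneg
      · intro v hv
        rw [Finset.mem_filter, Finset.mem_erase] at hv
        unfold mx at hv ⊢
        rw [Finset.mem_filter] at hv ⊢
        rw [Finset.mem_filter]
        refine ⟨⟨hv.1.2.1, hv.2⟩, fun y hy => ?_⟩
        exact hv.1.2.2 y (Finset.mem_filter.1 hy).1
      · intro v _ _
        exact sm_nonneg _ _
  have h4 := h2.trans (Finset.sum_le_sum h3)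
  have h5 : ∀ x ∈ A, 6 * (((nb A x : ℚ) + up A x) / nb A x * SS (A.filter fun y => ¬ y ≤ x) +
      ((nb A x : ℚ) + up A x) / up A x * SS (A.filter fun y => x < y)) ≤
      Qp (nb A x) (up A x) := by
    intro x hx
    have i1 := ih (nb A x) (by rw [← h]; exact nb_lt A hx) (A.filter fun y => ¬ y ≤ x) rfl
    have i2 := ih (up A x) (by rw [← h]; exact up_lt A hx) (A.filter fun y => x < y) rfl
    have j1 := div_mul_le ((nb A x : ℚ) + up A x) (nb A x) (by positivity) (by positivity) i1
    have j2 := div_mul_le ((nb A x : ℚ) + up A x) (up A x) (by positivity) (by positivity) i2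
    unfold Qp
    linarith
  have h6 := Finset.sum_le_sum h5
  rw [← Finset.mul_sum] at h6
  have h7 := sum_Qp A
  rw [h] at h7
  push_cast at h7 ⊢
  have hn : (0 : ℚ) < (n : ℚ) + 1 := by positivity
  have h8 : ((n : ℚ) + 1) * (6 * SS A) ≤
      ((n : ℚ) + 1) * ((n + 1 + 1) * (n + 1 + 1 + 1) * (n + 1 + 1 + 2)) := by
    calc ((n : ℚ) + 1) * (6 * SS A) = 6 * (((n : ℚ) + 1) * SS A) := by ring
      _ ≤ 6 * _ := mul_le_mul_of_nonneg_left h4 (by norm_num)
      _ ≤ _ := h6
      _ ≤ _ := h7
      _ = _ := by ring
  exact le_of_mul_le_mul_left h8 hn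

end main

/-! ### Labelings and orderings -/

section orderings

variable {P : Type u} [Fintype P]

theorem sum_orderings (k : ℕ) (s : Finset P) (hs : s.card = k) (f : List P → ℚ) :
    ∑ w : Fin k → P, (if Function.Injective w ∧ Finset.univ.image w = s then
      f (List.ofFn w) else 0) = (k.factorial : ℚ) * Avg k s f := by
  induction k generalizing s f with
  | zero =>
    rw [Finset.card_eq_zero] at hs
    subst hs
    rw [Fintype.sum_unique]
    rw [if_pos]
    · simp [Avg_zero]
    · exact ⟨fun x => x.elim0, by simp⟩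
  | succ k ih =>
    rw [← Fintype.sum_equiv (Fin.consEquiv (fun _ : Fin (k + 1) => P)) (fun p : P × (Fin k → P) =>
      if Function.Injective (Fin.cons p.1 p.2 : Fin (k + 1) → P) ∧
        Finset.univ.image (Fin.cons p.1 p.2 : Fin (k + 1) → P) = s then
        f (List.ofFn (Fin.cons p.1 p.2 : Fin (k + 1) → P)) else 0) _ (fun p => rfl)]
    rw [Fintype.sum_prod_type]
    have himg : ∀ (x : P) (w : Fin k → P),
        Finset.univ.image (Fin.cons x w : Fin (k + 1) → P) =
          insert x (Finset.univ.image w) := by
      intro x w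
      ext y
      rw [Finset.mem_image, Finset.mem_insert, Finset.mem_image]
      constructor
      · rintro ⟨i, -, rfl⟩
        refine Fin.cases (Or.inl rfl) (fun j => Or.inr ⟨j, Finset.mem_univ _, rfl⟩) i
      · rintro (rfl | ⟨j, -, rfl⟩)
        · exact ⟨0, Finset.mem_univ _, rfl⟩
        · exact ⟨j.succ, Finset.mem_univ _, rfl⟩
    have hx : ∀ x : P, ∑ w : Fin k → P,
        (if Function.Injective (Fin.cons x w : Fin (k + 1) → P) ∧
          Finset.univ.image (Fin.cons x w : Fin (k + 1) → P) = s then
          f (List.ofFn (Fin.cons x w : Fin (k + 1) → P)) else 0) =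
        if x ∈ s then (k.factorial : ℚ) * Avg k (s.erase x) (fun l => f (x :: l)) else 0 := by
      intro x
      by_cases hxs : x ∈ s
      · rw [if_pos hxs, ← ih (s.erase x) (by rw [Finset.card_erase_of_mem hxs, hs]; rfl)]
        refine Finset.sum_congr rfl fun w _ => ?_
        have hiff : (Function.Injective (Fin.cons x w : Fin (k + 1) → P) ∧
          Finset.univ.image (Fin.cons x w : Fin (k + 1) → P) = s) ↔
          (Function.Injective w ∧ Finset.univ.image w = s.erase x) := by
          rw [Fin.cons_injective_iff, himg]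
          constructor
          · rintro ⟨⟨h1, h2⟩, h3⟩
            refine ⟨h2, ?_⟩
            rw [← h3, Finset.erase_insert]
            intro h4
            obtain ⟨i, -, hi⟩ := Finset.mem_image.1 h4
            exact h1 ⟨i, hi⟩
          · rintro ⟨h1, h2⟩
            refine ⟨⟨?_, h1⟩, ?_⟩
            · rintro ⟨i, hi⟩
              have : x ∈ Finset.univ.image w := Finset.mem_image.2 ⟨i, Finset.mem_univ _, hi⟩
              rw [h2] at this
              exact Finset.notMem_erase x s this
            · rw [h2, Finset.insert_erase hxs]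
        by_cases hc : (Function.Injective w ∧ Finset.univ.image w = s.erase x)
        · rw [if_pos hc, if_pos (hiff.2 hc), List.ofFn_cons]
        · rw [if_neg hc, if_neg (fun h => hc (hiff.1 h))]
      · rw [if_neg hxs]
        apply Finset.sum_eq_zero
        intro w _
        rw [if_neg]
        rintro ⟨-, h⟩
        rw [himg] at h
        exact hxs (h ▸ Finset.mem_insert_self x _)
    rw [Finset.sum_congr rfl fun x _ => hx x, Finset.sum_ite_mem, Finset.univ_inter, Avg_succ,
      ← Finset.mul_sum, Nat.factorial_succ]
    have hk : (k : ℚ) + 1 ≠ 0 := by positivity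
    push_cast
    field_simp

/-- The ordering of a labeling without its last element. -/
def ord {N : ℕ} (L : P ≃ Fin (N + 1)) : List P := List.ofFn fun i : Fin N => L.symm i.castSucc

theorem sum_labelings {N : ℕ} (hN : Fintype.card P = N + 1) (F : P → List P → ℚ) :
    ∑ L : P ≃ Fin (N + 1), F (L.symm (Fin.last N)) (ord L) =
      (N.factorial : ℚ) * ∑ v : P, Avg N (Finset.univ.erase v) (F v) := by
  rw [Finset.mul_sum]
  have h1 : ∀ v : P, (N.factorial : ℚ) * Avg N (Finset.univ.erase v) (F v) =
      ∑ w : Fin N → P, (if Function.Injective w ∧ Finset.univ.image w = Finset.univ.erase v then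
      F v (List.ofFn w) else 0) := by
    intro v
    rw [sum_orderings]
    rw [Finset.card_erase_of_mem (Finset.mem_univ v), Finset.card_univ, hN]
    rfl
  rw [Finset.sum_congr rfl fun v _ => h1 v, ← Fintype.sum_prod_type', ← Finset.sum_filter]
  refine Finset.sum_bij (fun (L : P ≃ Fin (N + 1)) _ =>
    (L.symm (Fin.last N), fun i : Fin N => L.symm i.castSucc)) ?_ ?_ ?_ ?_
  · intro L _
    rw [Finset.mem_filter]
    refine ⟨Finset.mem_univ _, ?_, ?_⟩
    · intro i j h
      exact Fin.castSucc_injective N (L.symm.injective h)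
    · ext y
      rw [Finset.mem_image, Finset.mem_erase]
      constructor
      · rintro ⟨i, -, rfl⟩
        refine ⟨fun h => ?_, Finset.mem_univ _⟩
        exact (Fin.castSucc_lt_last i).ne (L.symm.injective h)
      · rintro ⟨h, -⟩
        have h2 : L y ≠ Fin.last N := fun h3 => h (by rw [← h3, L.symm_apply_apply])
        obtain ⟨j, hj⟩ := Fin.exists_castSucc_eq.2 h2
        exact ⟨j, Finset.mem_univ _, by simp only [hj, L.symm_apply_apply]⟩
  · intro L _ L' _ h
    rw [Prod.mk.injEq] at h
    have h2 : L.symm = L'.symm := by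
      ext i
      refine Fin.lastCases h.1 (fun j => congrFun h.2 j) i
    have := congrArg Equiv.symm h2
    simpa using this
  · rintro ⟨v, w⟩ h
    rw [Finset.mem_filter] at h
    obtain ⟨-, h1, h2⟩ := h
    dsimp only at h1 h2
    have hinj : Function.Injective (Fin.snoc w v : Fin (N + 1) → P) := by
      intro i j
      refine Fin.lastCases ?_ (fun i => ?_) i <;> refine Fin.lastCases ?_ (fun j => ?_) j
      · intro _; rfl
      · intro h
        rw [Fin.snoc_last, Fin.snoc_castSucc] at h
        have : v ∈ Finset.univ.image w := Finset.mem_image.2 ⟨j, Finset.mem_univ _, h.symm⟩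
        rw [h2] at this
        exact absurd this (Finset.notMem_erase _ _)
      · intro h
        rw [Fin.snoc_last, Fin.snoc_castSucc] at h
        have : v ∈ Finset.univ.image w := Finset.mem_image.2 ⟨i, Finset.mem_univ _, h⟩
        rw [h2] at this
        exact absurd this (Finset.notMem_erase _ _)
      · intro h
        rw [Fin.snoc_castSucc, Fin.snoc_castSucc] at h
        rw [h1 h]
    have hbij : Function.Bijective (Fin.snoc w v : Fin (N + 1) → P) :=
      (Fintype.bijective_iff_injective_and_card _).2 ⟨hinj, by rw [Fintype.card_fin, hN]⟩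
    refine ⟨(Equiv.ofBijective _ hbij).symm, Finset.mem_univ _, ?_⟩
    rw [Prod.mk.injEq]
    constructor
    · show (Fin.snoc w v : Fin (N + 1) → P) (Fin.last N) = v
      rw [Fin.snoc_last]
    · funext i
      show (Fin.snoc w v : Fin (N + 1) → P) i.castSucc = w i
      rw [Fin.snoc_castSucc]
  · intro L _
    rfl

end orderings

/-! ### The fibres of extended promotion -/

section fibre

variable {P : Type u} [PartialOrder P] [Fintype P] {N : ℕ}

theorem golden_ofFn {k : ℕ} (w : Fin k → P) (i : Fin k) (h : ∀ j, w i < w j → i < j) :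
    golden (List.ofFn w) (w i) := by
  induction k with
  | zero => exact i.elim0
  | succ k ih =>
    rw [List.ofFn_succ]
    revert h
    refine Fin.cases (fun _ => Or.inl rfl) (fun i h => ?_) i
    right
    refine ⟨fun h1 => ?_, ?_⟩
    · have := h 0 h1
      exact absurd this (Fin.not_lt_zero _)
    · apply ih (fun i => w i.succ) i
      intro j hj
      have := h j.succ hj
      exact Fin.succ_lt_succ_iff.1 this

theorem mem_ord (L : P ≃ Fin (N + 1)) (x : P) (hx : x ≠ L.symm (Fin.last N)) : x ∈ ord L := by
  unfold ord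
  rw [List.mem_ofFn]
  have h2 : L x ≠ Fin.last N := fun h3 => hx (by rw [← h3, L.symm_apply_apply])
  obtain ⟨j, hj⟩ := Fin.exists_castSucc_eq.2 h2
  exact ⟨j, by simp only [hj, L.symm_apply_apply]⟩

theorem golden_ord (L : P ≃ Fin (N + 1)) (x : P) (hx : x ≠ L.symm (Fin.last N))
    (h : ∀ z, x < z → lab L x < lab L z) : golden (ord L) x := by
  have h2 : L x ≠ Fin.last N := fun h3 => hx (by rw [← h3, L.symm_apply_apply])
  obtain ⟨j, hj⟩ := Fin.exists_castSucc_eq.2 h2
  have h3 : x = (fun i : Fin N => L.symm i.castSucc) j := by simp only [hj, L.symm_apply_apply]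
  unfold ord
  rw [h3]
  apply golden_ofFn
  intro i hi
  have hi' : x < L.symm i.castSucc := by rw [h3]; exact hi
  have h4 := h _ hi'
  unfold lab at h4
  simp only [L.apply_symm_apply, ← hj] at h4
  rw [Fin.lt_def]
  simpa using h4

/-- The promotion chain without the element `v`. -/
noncomputable def pch (L : P ≃ Fin (N + 1)) (v : P) : Finset P :=
  Finset.univ.filter fun x => InChain L x ∧ x ≠ v

theorem mem_pch {L : P ≃ Fin (N + 1)} {v x : P} : x ∈ pch L v ↔ InChain L x ∧ x ≠ v := by
  unfold pch
  rw [Finset.mem_filter]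
  simp

theorem top_facts {L : P ≃ Fin (N + 1)} {v : P} (hv : lab (promotion L) v = N + 1) :
    InChain L v ∧ ∀ z, ¬ v < z := by
  rw [lab_promotion] at hv
  by_cases h : InChain L v
  · refine ⟨h, fun z hz => ?_⟩
    obtain ⟨y, hy⟩ := exists_isSucc L hz
    have h1 := promoLab_succ h hy
    have h2 := lab_le L y
    omega
  · have h1 := promoLab_not h
    have h2 := lab_le L v
    omega

theorem lt_top {L : P ≃ Fin (N + 1)} {v x : P} (hv : lab (promotion L) v = N + 1)
    (hx : InChain L x) (hxv : x ≠ v) : x < v := by
  obtain ⟨h1, h2⟩ := top_facts hv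
  rcases reach_total hx h1 with h | h
  · exact lt_of_le_of_ne (le_of_reach h) hxv
  · exact absurd (lt_of_le_of_ne (le_of_reach h) (Ne.symm hxv)) (h2 x)

theorem golden_fact {L : P ≃ Fin (N + 1)} {v x z : P} (hv : lab (promotion L) v = N + 1)
    (hx : InChain L x) (hxv : x ≠ v) (hz : x < z) :
    lab (promotion L) x < lab (promotion L) z := by
  rw [lab_promotion, lab_promotion]
  obtain ⟨y, hy⟩ := exists_isSucc L (lt_top hv hx hxv)
  have h1 := promoLab_succ hx hy
  by_cases hzc : InChain L z
  · by_cases hzs : ∃ w, IsSucc L z w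
    · obtain ⟨w, hw⟩ := hzs
      have h2 := promoLab_succ hzc hw
      have h3 := succ_le hx hzc hz hy
      have h4 := hy.2 w (hz.trans hw.1)
      have h5 : lab L y ≠ lab L w := by
        intro h
        have := lab_injective L h
        rw [this] at h3
        exact absurd hw.1 (not_lt_of_ge h3)
      omega
    · have h2 := promoLab_max hzc hzs
      have h3 := lab_le L y
      omega
  · have h2 := promoLab_not hzc
    have h3 := hy.2 z hz
    have h4 : lab L y ≠ lab L z := by
      intro h
      have := lab_injective L h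
      exact hzc (this ▸ inChain_succ hx hy)
    omega

theorem fibre_inj {L₁ L₂ : P ≃ Fin (N + 1)} {v : P} (he : promotion L₁ = promotion L₂)
    (hv₁ : lab (promotion L₁) v = N + 1) (hs : pch L₁ v = pch L₂ v) : L₁ = L₂ := by
  have hv₂ : lab (promotion L₂) v = N + 1 := he ▸ hv₁
  have hc : ∀ x, InChain L₁ x ↔ InChain L₂ x := by
    intro x
    by_cases hx : x = v
    · subst hx
      exact ⟨fun _ => (top_facts hv₂).1, fun _ => (top_facts hv₁).1⟩
    · have h1 : x ∈ pch L₁ v ↔ x ∈ pch L₂ v := by rw [hs]
      rw [mem_pch, mem_pch] at h1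
      constructor
      · exact fun h => (h1.1 ⟨h, hx⟩).1
      · exact fun h => (h1.2 ⟨h, hx⟩).1
  have hp : ∀ x, promoLab L₁ x = promoLab L₂ x := by
    intro x
    rw [← lab_promotion, ← lab_promotion, he]
  have hlab : ∀ x, lab L₁ x = lab L₂ x := by
    intro x
    by_cases hx : InChain L₁ x
    · obtain ⟨a, ha, hax⟩ := hx
      rcases hax.cases_tail with h | ⟨b, hab, hbx⟩
      · subst h
        -- the start of the chain
        have h1 : InChain L₂ x := (hc x).1 ⟨x, ha, Relation.ReflTransGen.refl⟩
        obtain ⟨a', ha', hax'⟩ := h1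
        have h2 : InChain L₁ a' := (hc a').2 ⟨a', ha', Relation.ReflTransGen.refl⟩
        obtain ⟨a'', ha'', hax''⟩ := h2
        have h3 : a'' = x := lab_injective L₁ (by rw [ha'', ha])
        subst h3
        have h4 : a' = a'' := le_antisymm (le_of_reach hax') (le_of_reach hax'')
        subst h4
        rw [ha, ha']
      · have hb : InChain L₁ b := ⟨a, ha, hab⟩
        have hb' := (hc b).1 hb
        obtain ⟨y, hy⟩ := exists_isSucc L₂ hbx.1
        have h1 : y ≤ x := succ_le hb' ((hc x).1 (inChain_succ hb hbx)) hbx.1 hy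
        have h2 : x ≤ y := succ_le hb ((hc y).2 (inChain_succ hb' hy)) hy.1 hbx
        have h3 : y = x := le_antisymm h1 h2
        subst h3
        rw [← promoLab_succ hb hbx, ← promoLab_succ hb' hy, hp]
    · have hx' : ¬ InChain L₂ x := fun h => hx ((hc x).2 h)
      rw [← promoLab_not hx, ← promoLab_not hx', hp]
  ext x
  have := hlab x
  unfold lab at this
  omega

theorem fibre_card (L' : P ≃ Fin (N + 1)) :
    ((fib promotion L').card : ℚ) ≤
      if L'.symm (Fin.last N) ∈ mx (Finset.univ : Finset P) then
        gc (L'.symm (Fin.last N)) (ord L') else 0 := by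
  set v := L'.symm (Fin.last N) with hv
  have hlab : lab L' v = N + 1 := by
    unfold lab
    rw [hv, L'.apply_symm_apply]
    rfl
  split_ifs with hm
  · unfold gc
    rw [Nat.cast_le]
    apply Finset.card_le_card_of_injOn (fun L => pch L v)
    · intro L hL
      rw [Finset.mem_coe, mem_fib] at hL
      have hL' := hL
      rw [Finset.mem_coe]
      show pch L v ∈ chains v (ord L')
      rw [mem_chains]
      have hvL : lab (promotion L) v = N + 1 := by rw [hL']; exact hlab
      constructor
      · intro x hx
        rw [mem_pch] at hx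
        refine ⟨mem_ord L' x (by rw [← hv]; exact hx.2), lt_top hvL hx.1 hx.2, ?_⟩
        apply golden_ord L' x (by rw [← hv]; exact hx.2)
        intro z hz
        have := golden_fact hvL hx.1 hx.2 hz
        rw [hL'] at this
        exact this
      · intro x hx y hy
        rw [mem_pch] at hx hy
        rcases reach_total hx.1 hy.1 with h | h
        · exact Or.inl (le_of_reach h)
        · exact Or.inr (le_of_reach h)
    · intro L₁ h₁ L₂ h₂ h
      rw [Finset.mem_coe, mem_fib] at h₁ h₂
      exact fibre_inj (h₁.trans h₂.symm) (by rw [h₁]; exact hlab) h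
  · have : fib promotion L' = ∅ := by
      rw [Finset.eq_empty_iff_forall_notMem]
      intro L hL
      rw [mem_fib] at hL
      apply hm
      unfold mx
      rw [Finset.mem_filter]
      refine ⟨Finset.mem_univ _, fun y _ => ?_⟩
      exact (top_facts (L := L) (v := v) (by rw [hL]; exact hlab)).2 y
    rw [this]
    simp

end fibre

/-- **Among the posets with `n` elements the chain has the largest degree of noninvertibility of
extended promotion**: `deg(∂_P) ≤ (n + 2) (n + 1) / 6`. -/
theorem result (P : Type u) [PartialOrder P] [Fintype P] (n : ℕ) (hn : Fintype.card P = n)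
    (h1 : 1 ≤ n) :
    deg (promotion : (P ≃ Fin n) → (P ≃ Fin n)) ≤ ((n : ℚ) + 2) * (n + 1) / 6 := by
  obtain ⟨N, rfl⟩ : ∃ N, n = N + 1 := ⟨n - 1, by omega⟩
  have hcard : Fintype.card (P ≃ Fin (N + 1)) = (N + 1).factorial := by
    rw [Fintype.card_equiv (Fintype.equivFinOfCardEq hn), hn]
  unfold deg
  rw [hcard]
  have h2 : ∀ L : P ≃ Fin (N + 1),
      ((fib promotion L).card : ℚ) ^ 2 ≤
      (fun (v : P) (l : List P) => if v ∈ mx (Finset.univ : Finset P) then gc v l ^ 2 else 0)
        (L.symm (Fin.last N)) (ord L) := by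
    intro L
    have h3 := fibre_card L
    have h4 : (0 : ℚ) ≤ ((fib promotion L).card : ℚ) := by positivity
    dsimp only
    split_ifs at h3 ⊢ with h
    · exact pow_le_pow_left₀ h4 h3 2
    · have h5 : ((fib promotion L).card : ℚ) = 0 := le_antisymm h3 h4
      rw [h5]
      norm_num
  have h3 := (Finset.sum_le_sum fun L
    (_ : L ∈ (Finset.univ : Finset (P ≃ Fin (N + 1)))) => h2 L).trans
    (sum_labelings hn (fun (v : P) (l : List P) =>
      if v ∈ mx (Finset.univ : Finset P) then gc v l ^ 2 else 0)).le
  have h4 : ∑ v : P, Avg N (Finset.univ.erase v)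
      ((fun (v : P) (l : List P) => if v ∈ mx (Finset.univ : Finset P) then gc v l ^ 2
        else 0) v) = SS (Finset.univ : Finset P) := by
    unfold SS
    rw [← Finset.sum_subset (Finset.subset_univ (mx (Finset.univ : Finset P)))]
    · refine Finset.sum_congr rfl fun v hv => ?_
      unfold sm
      rw [Finset.card_erase_of_mem (Finset.mem_univ v), Finset.card_univ, hn]
      simp only [hv, if_true]
      rfl
    · intro v _ hv
      simp only [hv, if_false]
      have := Avg_lin N (Finset.univ.erase v) 0 0 (fun _ => 0) (fun _ => 0)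
      simpa using this
  rw [h4] at h3
  have h5 := SS_le (Finset.univ : Finset P)
  rw [Finset.card_univ, hn] at h5
  push_cast at h5 ⊢
  have hf : (0 : ℚ) < (N.factorial : ℚ) := by exact_mod_cast N.factorial_pos
  rw [Nat.factorial_succ]
  push_cast
  rw [div_le_iff₀ (by positivity)]
  calc _ ≤ (N.factorial : ℚ) * SS (Finset.univ : Finset P) := h3
    _ ≤ (N.factorial : ℚ) * ((N + 1) * (N + 1 + 1) * (N + 1 + 2) / 6) := by
        apply mul_le_mul_of_nonneg_left _ hf.le
        linarith
    _ = _ := by ring

end Pool.Agent.Results.MP_180e15_co.ChainMax
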